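import Pool.Agent.Helper52.KT.St

/-!
# Project KT, module RU: final theorem U
-/

set_option autoImplicit false

namespace Pool.Agent.Helper94.KT

open Pool.Agent.Helper26.Kempe Pool.Agent.Helper52.KT Pool.Agent.Helper52.KT.St
open Pool.Agent.Helper52.KR (N Zc Mn Hs)

private theorem ce_le {V : Type} [Fintype V] [DecidableEq V] (G : SimpleGraph V) [DecidableRel G.Adj]
    (t : ℕ) (x : V) : ce G (t : ℝ) x ≤ (Finset.univ.filter (fun y => G.Adj x y ∧
      t < (Finset.univ.filter (fun z => G.Adj x z ∧ G.Adj y z)).card)).card := by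
  unfold ce
  apply Finset.card_le_card
  intro y hy
  simp only [Finset.mem_filter, Finset.mem_univ, true_and] at hy ⊢
  refine ⟨hy.1, ?_⟩
  have h1 := Nat.cast_lt.1 hy.2
  refine lt_of_lt_of_le h1 (Finset.card_le_card ?_)
  intro z hz
  simp only [Finset.mem_inter, Finset.mem_filter, Finset.mem_univ, true_and, N] at hz ⊢
  exact hz

private theorem ce_zero {V : Type} [Fintype V] (G : SimpleGraph V) (t : ℝ) (x : V)
    (h : ((N G x).card : ℝ) ≤ t) : ce G t x = 0 := by
  classical
  unfold ce
  rw [Finset.card_eq_zero, Finset.eq_empty_iff_forall_notMem]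
  intro y hy
  simp only [Finset.mem_filter, Finset.mem_univ, true_and] at hy
  have h3 := lt_of_le_of_lt h hy.2
  have h4 := Nat.cast_lt.1 h3
  refine absurd h4 (not_lt.2 (Finset.card_le_card ?_))
  intro z hz
  simp only [Finset.mem_inter] at hz
  exact hz.1

theorem hRU : RU := by
  intro hP hF δ hδ
  obtain ⟨η0, hη0, D₀, hP'⟩ := hP (min δ 1 / 16) (by positivity) (by
    have := min_le_right δ 1
    linarith)
  obtain ⟨η, Δ₀, hη, hF'⟩ := hF (3 / 5) (2 / 5) (min δ 1) η0 D₀ (by norm_num) (by norm_num) (by norm_num)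
    (by positivity) (min_le_right δ 1) hη0
  refine ⟨η, Δ₀, hη, ?_⟩
  intro V _ _ G _ k t hΔ hce hk f g hf hg
  have hdeg : ∀ x, (N G x).card ≤ G.maxDegree := by
    intro x
    have h1 : (N G x).card = G.degree x := by
      rw [← SimpleGraph.card_neighborFinset_eq_degree]
      congr 1
      ext y
      simp [N]
    rw [h1]
    exact G.degree_le_maxDegree x
  refine hF' V G G.maxDegree k (min (t : ℝ) G.maxDegree) hΔ (by positivity) (min_le_right _ _) hdeg ?_ ?_ ?_ f g hf hg
  · intro x
    by_cases ht : (t : ℝ) ≤ G.maxDegree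
    · rw [min_eq_left ht]
      refine le_trans ?_ (hce x)
      exact_mod_cast ce_le G t x
    · push Not at ht
      rw [min_eq_right ht.le, ce_zero G _ x (by exact_mod_cast hdeg x)]
      simp only [Nat.cast_zero]
      positivity
  · intro H _ D' k' t' hD' ht' hN' hce' hk'
    exact hP' V H D' k' t' hD' ht' hN' hce' hk'
  · have h1 : min (t : ℝ) G.maxDegree ≤ t := min_le_left _ _
    have h2 : min δ 1 * (G.maxDegree : ℝ) ≤ δ * G.maxDegree :=
      mul_le_mul_of_nonneg_right (min_le_left _ _) (Nat.cast_nonneg _)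
    linarith

end Pool.Agent.Helper94.KT
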